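import Mathlib
import Pool.Agent.N240.HK.Stm

/-!
# Project HK (helper240), part PIG (helper572)
-/

set_option autoImplicit false

open MeasureTheory Set Metric Filter Topology
open Pool.Agent.N240.HK

namespace Pool.Agent.N572.HK.PIG

theorem weights : ∃ c₀ : ℝ, 0 < c₀ ∧ ∑' j : ℕ, ENNReal.ofReal (c₀ / ((j : ℝ) + 1) ^ 2) < 1 := by
  have hs : Summable (fun j : ℕ => 1 / ((j : ℝ) + 1) ^ 2) := by
    have := (_root_.summable_nat_add_iff 1).2 (Real.summable_one_div_nat_pow.2 (by norm_num : 1 < 2))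
    simpa using this
  set T := ∑' j : ℕ, 1 / ((j : ℝ) + 1) ^ 2 with hT
  have hT0 : 0 ≤ T := tsum_nonneg (fun j => by positivity)
  refine ⟨1 / (2 * (T + 1)), by positivity, ?_⟩
  have hs2 : Summable (fun j : ℕ => 1 / (2 * (T + 1)) / ((j : ℝ) + 1) ^ 2) := by
    have := hs.mul_left (1 / (2 * (T + 1)))
    refine this.congr (fun j => ?_)
    ring
  rw [← ENNReal.ofReal_tsum_of_nonneg (fun j => by positivity) hs2]
  have h1 : ∑' j : ℕ, 1 / (2 * (T + 1)) / ((j : ℝ) + 1) ^ 2 = 1 / (2 * (T + 1)) * T := by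
    rw [hT, ← _root_.tsum_mul_left]
    apply tsum_congr
    intro j
    ring
  rw [h1, ← ENNReal.ofReal_one]
  refine (ENNReal.ofReal_lt_ofReal_iff one_pos).2 ?_
  rw [one_div_mul_eq_div, div_lt_one (by positivity)]
  linarith

lemma pig {a : ENNReal} (ha0 : a ≠ 0) (haT : a ≠ ⊤) {w : ℕ → ENNReal} (hw : ∑' j, w j < 1)
    {f : ℕ → ENNReal} (h : a ≤ ∑' j, f j) : ∃ j, w j * a ≤ f j := by
  by_contra hc
  push Not at hc
  have h1 : ∑' j, f j ≤ ∑' j, w j * a := ENNReal.tsum_le_tsum fun j => (hc j).le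
  rw [ENNReal.tsum_mul_right] at h1
  have h2 : (∑' j, w j) * a < 1 * a := (ENNReal.mul_lt_mul_iff_left ha0 haT).2 hw
  rw [one_mul] at h2
  exact absurd (h.trans h1) (not_le.mpr h2)

theorem main : Pool.Agent.N240.HK.S_pig := by
  obtain ⟨c₀, hc₀, hsum⟩ := weights
  refine ⟨fun j => c₀ / ((j : ℝ) + 1) ^ 2, fun j => by positivity, fun j => by simp, ?_⟩
  intro d V a K s lam hlam hV0 hVT hV x r J hK
  have hcov : K ⊆ ⋃ j, ⋃ i, ⋃ (_ : J i = j), closedBall (x i) (r i) := by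
    intro y hy
    obtain ⟨i, hi⟩ := mem_iUnion.1 (hK hy)
    exact mem_iUnion.2 ⟨J i, mem_iUnion.2 ⟨i, mem_iUnion.2 ⟨rfl, hi⟩⟩⟩
  have h1 : ∀ v ∈ V, ∃ j : ℕ, ENNReal.ofReal (c₀ / ((j : ℝ) + 1) ^ 2 * lam) ≤
      volume ({t : ℝ | linePoint v (a v) t ∈ ⋃ i, ⋃ (_ : J i = j), closedBall (x i) (r i)} ∩
        Icc (s - 1 / 8) (s + 1 / 8)) := by
    intro v hv
    have h2 : volume ({t : ℝ | linePoint v (a v) t ∈ K} ∩ Icc (s - 1 / 8) (s + 1 / 8)) ≤
        ∑' j, volume ({t : ℝ | linePoint v (a v) t ∈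
          ⋃ i, ⋃ (_ : J i = j), closedBall (x i) (r i)} ∩ Icc (s - 1 / 8) (s + 1 / 8)) := by
      refine le_trans (measure_mono ?_) (measure_iUnion_le _)
      rintro t ⟨ht, htW⟩
      obtain ⟨j, hj⟩ := mem_iUnion.1 (hcov ht)
      exact mem_iUnion.2 ⟨j, hj, htW⟩
    obtain ⟨j, hj⟩ := pig (by simpa using hlam) ENNReal.ofReal_ne_top hsum ((hV v hv).trans h2)
    refine ⟨j, ?_⟩
    rw [ENNReal.ofReal_mul (by positivity)]
    exact hj
  refine pig hV0 hVT hsum (le_trans (measure_mono ?_) (measure_iUnion_le _))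
  intro v hv
  obtain ⟨j, hj⟩ := h1 v hv
  exact mem_iUnion.2 ⟨j, hv, hj⟩

end Pool.Agent.N572.HK.PIG
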